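import Pool.Agent.Helper20.Flip.Sh.MInv
import Pool.Agent.Helper72.Flip.Sh.SList
import Pool.Agent.Helper4.Flip.BStep
import Pool.Agent.Helper20.Flip.Macro

/-!
# The macro phase: preservation of the invariant
-/

set_option autoImplicit false

namespace Pool.Agent.Helper20.Flip.Sh

namespace Par
variable {P : Par}

theorem Inv.coarse {J : ℕ} {f : ℕ → Bool} {st : St} (h : P.Inv J f st) : P.Coarse J f st := by
  have hδ := P.δ_le
  have hδ0 := P.δpos
  norm_num at hδ
  have hδ2 := P.δsq_le'
  norm_num at hδ2
  refine ⟨h.hJ, h.hf, ?_, ?_, ?_, ?_⟩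
  · intro j hj
    exact (h.hw1 j hj).trans (by linarith)
  · exact h.pulse.trans (by linarith)
  · intro j hj hj'
    exact (h.hw3 j hj hj').trans (by linarith)
  · intro j hj hj'
    rcases lt_trichotomy j J with hlt | heq | hgt
    · exact (h.ht1 j hj hlt).trans (by linarith)
    · subst heq
      exact (h.ht2 hj).trans (by linarith)
    · exact (h.ht3 j hgt hj').trans (by linarith)

theorem Inv.stepV {J : ℕ} {f : ℕ → Bool} {st : St} (h : P.Inv J f st) {j : ℕ} (hj : 1 ≤ j)
    (hjJ : j + 2 ≤ J) (hf : f j = false) : P.Inv J (Function.update f j true) (P.stV st j) := by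
  have hJ := h.hJ
  have hδ0 := P.δpos
  have hv := h.hw1' j (by omega) hf
  have ht := h.ht1' j hj (by omega) hf
  have hs := abs_le.1 (sV_bound hj (by omega) hv ht)
  have hv' := abs_le.1 hv
  have ht' := abs_le.1 ht
  have hR := Rpos j
  have htn : ∀ i, i ≠ j → tnom J (Function.update f j true) i = tnom J f i := by
    intro i hi
    unfold tnom
    rw [Function.update_of_ne hi]
  refine ⟨hJ, ?_, ?_, ?_, ?_, ?_, ?_, ?_, ?_, ?_⟩
  · intro i hi
    by_cases hij : i = j
    · subst hij
      unfold M at hJ
      omega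
    · rw [Function.update_of_ne hij] at hi
      exact h.hf i hi
  · intro i hi
    by_cases hij : i = j
    · subst hij
      simp only [stV, Function.update_self]
      rw [abs_le]
      constructor <;> linarith
    · simp only [stV, Function.update_of_ne hij]
      exact h.hw1 i hi
  · intro i hi hfi
    by_cases hij : i = j
    · subst hij
      rw [Function.update_self] at hfi
      simp at hfi
    · rw [Function.update_of_ne hij] at hfi
      simp only [stV, Function.update_of_ne hij]
      exact h.hw1' i hi hfi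
  · simp only [stV, Function.update_of_ne (show J ≠ j by omega)]
    rw [Q_congr (g := f) (fun i hi => Function.update_of_ne (by omega) _ _)]
    exact h.hw2
  · intro i hi hi'
    simp only [stV, Function.update_of_ne (show i ≠ j by omega)]
    exact h.hw3 i hi hi'
  · intro i hi hi'
    by_cases hij : i = j
    · subst hij
      have h1 : tnom J (Function.update f i true) i = 3 / 2 * R i := by
        unfold tnom
        rw [Function.update_self, if_pos rfl, if_pos hi']
      simp only [stV, Function.update_self]
      rw [h1, abs_le]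
      constructor <;> linarith
    · simp only [stV, Function.update_of_ne hij]
      rw [htn i hij]
      exact h.ht1 i hi hi'
  · intro i hi hi' hfi
    by_cases hij : i = j
    · subst hij
      rw [Function.update_self] at hfi
      simp at hfi
    · rw [Function.update_of_ne hij] at hfi
      simp only [stV, Function.update_of_ne hij]
      exact h.ht1' i hi hi' hfi
  · intro hJ1
    simp only [stV, Function.update_of_ne (show J ≠ j by omega)]
    rw [htn J (by omega)]
    exact h.ht2 hJ1
  · intro i hi hi'
    simp only [stV, Function.update_of_ne (show i ≠ j by omega)]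
    rw [htn i (by omega)]
    exact h.ht3 i hi hi'

theorem Inv.stepF {J : ℕ} {f : ℕ → Bool} {st : St} (h : P.Inv (J + 1) f st) :
    P.Inv J f (P.stF (J + 1) f st) := by
  have hJ := h.hJ
  have hδ0 := P.δpos
  have hF := abs_le.1 h.F_est
  have hδ2 := P.δsq_le'
  norm_num at hδ2
  have hm := abs_le.1 (m0_bound h.hf J)
  have hpulse := abs_le.1 h.pulse
  have ha := abs_le.1 (h.hw1 J (by omega))
  have hRs := Rsucc J
  have hR := Rpos J
  have hR' := Rpos (J + 1)
  have hone : ¬ (J + 1 - 1 = J + 1) := by omega
  refine ⟨by omega, h.hf, ?_, ?_, ?_, ?_, ?_, ?_, ?_, ?_⟩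
  · intro i hi
    simp only [stF]
    rw [if_neg (by omega)]
    exact h.hw1 i (by omega)
  · intro i hi hfi
    simp only [stF]
    rw [if_neg (by omega)]
    exact h.hw1' i (by omega) hfi
  · simp only [stF]
    rw [if_pos (by omega), Q_step hJ]
    have h1 := h.hw2
    push_cast at h1
    have h2 : 2 * P.sF (J + 1) f st - st.vw J -
        (P.Q (J + 1) f + (8 * (P.η * P.A f J) - 5 * (P.η * P.A f (J + 1)))) =
        (2 * P.sF (J + 1) f st - st.vw J - st.vw (J + 1) - P.m0 f J) +
        (st.vw (J + 1) - P.Q (J + 1) f) := by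
      unfold m0
      ring
    rw [h2]
    refine (abs_add_le _ _).trans ?_
    have h3 := h.F_est
    nlinarith
  · intro i hi hi'
    simp only [stF]
    by_cases hij : i = J + 1
    · subst hij
      rw [if_pos (by omega)]
      have : J + 1 - 1 = J := by omega
      rw [this, abs_le]
      constructor <;> linarith
    · rw [if_neg (by omega)]
      exact h.hw3 i (by omega) hi'
  · intro i hi hi'
    have h1 : tnom J f i = tnom (J + 1) f i := by
      unfold tnom
      split_ifs <;> first | rfl | omega
    simp only [stF]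
    rw [if_neg (by omega), h1]
    exact h.ht1 i hi (by omega)
  · intro i hi hi' hfi
    simp only [stF]
    rw [if_neg (by omega)]
    exact h.ht1' i hi (by omega) hfi
  · intro hJ1
    have ht := abs_le.1 (h.ht1 J hJ1 (by omega))
    simp only [stF]
    rw [if_pos (by omega)]
    by_cases hfJ : f J = true
    · have h1 : tnom (J + 1) f J = 3 / 2 * R J := by
        unfold tnom
        rw [if_pos hfJ, if_pos (by omega)]
      have h2 : tnom J f J = - (R J / 2) := by
        unfold tnom
        rw [if_pos hfJ, if_neg (by omega), if_pos rfl]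
      rw [h1] at ht
      rw [h2, abs_le]
      constructor <;> linarith
    · have h1 : tnom (J + 1) f J = R J / 2 := by
        unfold tnom
        rw [if_neg hfJ]
      have h2 : tnom J f J = R J / 2 := by
        unfold tnom
        rw [if_neg hfJ]
      rw [h1] at ht
      rw [h2, abs_le]
      constructor <;> linarith
  · intro i hi hi'
    simp only [stF]
    by_cases hij : i = J + 1
    · subst hij
      have ht := abs_le.1 (h.ht2 (by omega))
      by_cases hfJ : f (J + 1) = true
      · rw [if_pos (Or.inr ⟨rfl, hfJ⟩)]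
        have h1 : tnom (J + 1) f (J + 1) = - (R (J + 1) / 2) := by
          unfold tnom
          rw [if_pos hfJ, if_neg (by omega), if_pos rfl]
        have h2 : tnom J f (J + 1) = 3 / 4 * R (J + 1) := by
          unfold tnom
          rw [if_pos hfJ, if_neg (by omega), if_neg (by omega)]
        rw [h1] at ht
        rw [h2, abs_le]
        constructor <;> linarith
      · rw [if_neg (by simp [hfJ])]
        have h1 : tnom (J + 1) f (J + 1) = R (J + 1) / 2 := by
          unfold tnom
          rw [if_neg hfJ]
        have h2 : tnom J f (J + 1) = R (J + 1) / 2 := by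
          unfold tnom
          rw [if_neg hfJ]
        rw [h1] at ht
        rw [h2, abs_le]
        constructor <;> linarith
    · rw [if_neg (by omega)]
      have h1 : tnom J f i = tnom (J + 1) f i := by
        unfold tnom
        split_ifs <;> first | rfl | omega
      rw [h1]
      exact h.ht3 i (by omega) hi'

variable (P) in
/-- the initial state -/
noncomputable def st0 : St where
  vw := fun j => (toEdge (1, P.τ * (if j = P.n + 2 then -(3 * P.η * P.T) else R j))).2 / P.τ
  vt := fun j => (toEdge (P.ε j, P.ε j * (P.τ * (R j / 2)))).2 / P.τ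

variable (P) in
theorem chain_st0 : P.chain P.st0 = P.chain0 := by
  have hτ := P.τ_pos.ne'
  have key : ∀ v : Pt, ((toEdge v).1, P.τ * ((toEdge v).2 / P.τ)) = toEdge v := by
    intro v
    rw [mul_div_cancel₀ _ hτ]
  have h2 : P.seg P.st0 0 = [toEdge (1, P.τ * R 0)] := by
    unfold seg tl w Lw st0
    simp only [if_true]
    rw [if_neg (by omega), key]
  have h3 : ∀ i, P.seg P.st0 (i + 1) = (P.pair (i + 1)).map toEdge := by
    intro i
    unfold seg tl w t Lw Lt st0 pair
    simp only [if_neg (Nat.succ_ne_zero i), List.map_cons, List.map_nil]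
    rw [key, key]
  unfold chain chain0 vecs
  rw [List.range_succ_eq_map, List.flatMap_cons, List.flatMap_map, h2]
  have h4 : (fun i => P.seg P.st0 (Nat.succ i)) = fun i => (P.pair (i + 1)).map toEdge :=
    funext fun i => h3 i
  rw [h4]
  rw [List.map_append, List.map_cons, List.map_flatMap]
  rfl

variable (P) in
theorem inv_init : P.Inv P.M (fun _ => false) P.st0 := by
  have he0 := P.e0_le
  have he0' := P.e0_pos
  have hδ0 := P.δpos
  have hδ2 := P.δsq_le'
  norm_num at hδ2
  have hG := P.G_ge
  have hM : P.M = P.n + 2 := rfl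
  have hw : ∀ j, j < P.M → |P.st0.vw j - R j| ≤ P.e0 := by
    intro j hj
    have h1 := P.toEdge_vel (l := 1) one_pos (P.vnom_le (j := j) (by omega))
    unfold vnom at h1
    rw [if_neg (by omega)] at h1
    simp only [st0]
    rw [if_neg (by omega)]
    simpa using h1
  have ht : ∀ j, j ≤ P.M → |P.st0.vt j - R j / 2| ≤ P.e0 := by
    intro j hj
    have hR := P.R_le hj
    have hR' := Rpos j
    exact P.toEdge_vel (l := P.ε j) (P.εpos j) (x := R j / 2)
      (by rw [abs_of_pos (by positivity)]; linarith)
  refine ⟨le_rfl, ?_, ?_, ?_, ?_, ?_, ?_, ?_, ?_, ?_⟩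
  · intro j hj
    simp at hj
  · intro j hj
    exact (hw j hj).trans (by linarith)
  · intro j hj _
    exact (hw j hj).trans (by linarith)
  · rw [Q_top (by simp)]
    have h1 := P.toEdge_vel (l := 1) one_pos (P.vnom_le (j := P.M) le_rfl)
    unfold vnom at h1
    rw [if_pos hM] at h1
    simp only [st0]
    rw [if_pos hM]
    rw [one_mul] at h1
    refine h1.trans ?_
    have h2 : (P.M : ℝ) + 1 - P.M = 1 := by ring
    rw [h2]
    nlinarith [sq_nonneg P.δ]
  · intro j hj hj'
    omega
  · intro j hj hj'
    have h1 : tnom P.M (fun _ => false) j = R j / 2 := by unfold tnom; simp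
    rw [h1]
    exact (ht j (by omega)).trans (by linarith)
  · intro j hj hj' _
    exact (ht j (by omega)).trans (by linarith)
  · intro _
    have h1 : tnom P.M (fun _ => false) P.M = R P.M / 2 := by unfold tnom; simp
    rw [h1]
    exact (ht _ le_rfl).trans (by linarith)
  · intro j hj hj'
    omega

variable (P) in
theorem _root_.Pool.Agent.Helper20.Flip.Sh.chain0_ok : Ok P.N P.chain0 := by
  rw [← P.chain_st0]
  exact Par.Coarse.ok P.inv_init.coarse

theorem Inv.atZero {f : ℕ → Bool} {st : St} (h : P.Inv 0 f st) : P.AtZero f (P.chain st) := by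
  obtain ⟨rest, h1, h2, h3, h4⟩ := Par.Coarse.zero h.coarse
  have hLw := P.Lw_bounds (j := 0) (Nat.zero_le _)
  have he0 := P.e0_le_η
  refine ⟨P.Lw 0, st.vw 0, rest, h1, h2, ⟨hLw.1, by linarith⟩, ?_, h3, h4⟩
  have h5 := h.hw2
  rw [Q_zero h.hf] at h5
  refine h5.trans ?_
  refine mul_le_mul_of_nonneg_right ?_ (by positivity)
  unfold M
  push_cast
  linarith

end Par

theorem macro_no (P : Par) {Z : ℕ → List Edge → Prop} {K : ℕ}
    (hZ0 : ∀ f c, P.AtZero f c → Z K c) (hZ1 : ∀ r c, Z r c → Ok P.N c)
    (hZ2 : ∀ r c c', Z r c → CStep c c' → ∃ r', r ≤ r' + 1 ∧ Z r' c')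
    (hZ3 : ∀ r c, Z r c → 0 < r → ¬ WSorted c) :
    ∃ G : ℕ → List Edge → Prop, G K P.chain0 ∧ (∀ r c, G r c → Ok P.N c) ∧
      (∀ r c, G r c → 0 < r → ¬ WSorted c) ∧
      ∀ r c c', G r c → CStep c c' → ∃ r', r ≤ r' + 1 ∧ G r' c' := by
  refine ⟨fun r c => (r ≤ K ∧ ∃ J f st, P.Inv (J + 1) f st ∧ c = P.chain st) ∨ Z r c, ?_, ?_, ?_, ?_⟩
  · left
    exact ⟨le_rfl, P.n + 1, _, P.st0, P.inv_init, P.chain_st0.symm⟩
  · rintro r c (⟨-, J, f, st, h, rfl⟩ | h)
    · exact Par.Coarse.ok h.coarse
    · exact hZ1 r c h
  · rintro r c (⟨-, J, f, st, h, rfl⟩ | h) hr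
    · intro hw
      exact not_cstep_of_wsorted (Par.Coarse.ok h.coarse) hw (Par.Coarse.stepF h.coarse (by omega))
    · exact hZ3 r c h hr
  · rintro r c c' (⟨hr, J, f, st, h, rfl⟩ | h) hc
    · rcases Par.Coarse.cases h.coarse (by omega) hc with ⟨j, hj, hjJ, hf, rfl⟩ | rfl
      · exact ⟨r, by omega, Or.inl ⟨hr, J, _, _, h.stepV hj hjJ hf, rfl⟩⟩
      · rcases J with _ | J
        · exact ⟨K, by omega, Or.inr (hZ0 f _ h.stepF.atZero)⟩
        · exact ⟨r, by omega, Or.inl ⟨hr, J, f, _, h.stepF, rfl⟩⟩
    · obtain ⟨r', hr', h'⟩ := hZ2 r c c' h hc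
      exact ⟨r', hr', Or.inr h'⟩

theorem macro_yes (P : Par) (f : ℕ → Bool) :
    ∃ m c, m ≤ 2 * P.n + 2 ∧ CSeq P.N m P.chain0 c ∧ P.AtZero f c := by
  -- the small flips
  have h1 : ∀ k, k ≤ P.n → ∃ m st, m ≤ k ∧ CSeq P.N m P.chain0 (P.chain st) ∧
      P.Inv P.M (fun j => decide (1 ≤ j ∧ j ≤ k) && f j) st := by
    intro k
    induction k with
    | zero =>
      intro _
      refine ⟨0, P.st0, le_rfl, ?_, ?_⟩
      · rw [P.chain_st0]
        exact CSeq.refl _
      · have : (fun j => decide (1 ≤ j ∧ j ≤ 0) && f j) = fun _ => false := by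
          funext j
          have : decide (1 ≤ j ∧ j ≤ 0) = false := by
            rw [decide_eq_false_iff_not]
            omega
          rw [this, Bool.false_and]
        rw [this]
        exact P.inv_init
    | succ k ih =>
      intro hk
      obtain ⟨m, st, hmk, hm, hi⟩ := ih (by omega)
      by_cases hfk : f (k + 1) = true
      · have hff : (fun j => decide (1 ≤ j ∧ j ≤ k) && f j) (k + 1) = false := by
          simp
        have hM : k + 1 + 2 ≤ P.M := by unfold Par.M; omega
        have hi' := hi.stepV (by omega : 1 ≤ k + 1) hM hff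
        have hst := Par.Coarse.stepV hi.coarse (by omega : 1 ≤ k + 1) hM hff
        have hupd : Function.update (fun j => decide (1 ≤ j ∧ j ≤ k) && f j) (k + 1) true =
            fun j => decide (1 ≤ j ∧ j ≤ k + 1) && f j := by
          funext j
          by_cases hj : j = k + 1
          · subst hj
            simp [hfk]
          · rw [Function.update_of_ne hj]
            have : (1 ≤ j ∧ j ≤ k) ↔ (1 ≤ j ∧ j ≤ k + 1) := by omega
            simp only [this]
        rw [hupd] at hi'
        exact ⟨m + 1, _, by omega, hm.snoc hst (Par.Coarse.ok hi'.coarse), hi'⟩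
      · refine ⟨m, st, by omega, hm, ?_⟩
        have : (fun j => decide (1 ≤ j ∧ j ≤ k + 1) && f j) =
            fun j => decide (1 ≤ j ∧ j ≤ k) && f j := by
          funext j
          by_cases hj : j = k + 1
          · subst hj
            simp [hfk]
          · have : (1 ≤ j ∧ j ≤ k) ↔ (1 ≤ j ∧ j ≤ k + 1) := by omega
            simp only [this]
        rw [this]
        exact hi
  -- the big flips
  have h2 : ∀ k, k ≤ P.M → ∃ m st, m ≤ P.n + k ∧ CSeq P.N m P.chain0 (P.chain st) ∧
      P.Inv (P.M - k) (fun j => decide (1 ≤ j ∧ j ≤ P.n) && f j) st := by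
    intro k
    induction k with
    | zero => intro _; exact h1 P.n le_rfl
    | succ k ih =>
      intro hk
      obtain ⟨m, st, hmk, hm, hi⟩ := ih (by omega)
      have hJ : P.M - k = P.M - (k + 1) + 1 := by omega
      rw [hJ] at hi
      exact ⟨m + 1, _, by omega, hm.snoc (Par.Coarse.stepF hi.coarse (by omega))
        (Par.Coarse.ok hi.stepF.coarse), hi.stepF⟩
  obtain ⟨m, st, hmk, hm, hi⟩ := h2 P.M le_rfl
  rw [Nat.sub_self] at hi
  refine ⟨m, _, by unfold Par.M at hmk; omega, hm, ?_⟩
  have h3 := hi.atZero
  have h4 : P.ssum (fun j => decide (1 ≤ j ∧ j ≤ P.n) && f j) = P.ssum f := by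
    unfold Par.ssum
    refine Finset.sum_congr rfl fun j hj => ?_
    have := Finset.mem_Icc.1 hj
    simp [this]
  unfold Par.AtZero at h3 ⊢
  rw [h4] at h3
  exact h3

end Pool.Agent.Helper20.Flip.Sh
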