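import Mathlib

/-!
# The number of flips: real estimates
-/

set_option autoImplicit false

namespace Pool.Agent.Helper20.Flip.Sh

theorem low_num {δ η w q N' U₁ U₂ d₁ d₂ : ℝ} (hδ : 0 < δ) (hδ' : δ ≤ 1 / 2 ^ 20) (hη : 0 < η)
    (hw : w = 2 * N' * 1024 * δ ^ 2) (hN : 0 ≤ N') (hw' : w ≤ δ / 1000) (hq : 9 * η ^ 2 ≤ q ^ 2)
    (hq' : |q| ≤ 3 * δ) (hU₁ : 0 < U₁) (hU₁' : U₁ ≤ 8 / 9 * (27 * δ + q + w)) (hU₂ : 0 < U₂)
    (hU₂' : U₂ ≤ 27 * δ - q + w) (hd₁ : 3 / 64 - 12 * δ ≤ d₁) (hd₂ : 27 / 512 ≤ d₂) :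
    1 / (256 * δ) - N' - 1 + η ^ 2 / (32768 * δ ^ 3) ≤ d₁ / U₁ + d₂ / U₂ := by
  have hqa := abs_le.1 hq'
  have hw0 : 0 ≤ w := by rw [hw]; positivity
  norm_num at hδ'
  set S := 27 * δ + w with hS
  have hS1 : 27 * δ ≤ S := by rw [hS]; linarith
  have hS2 : S ≤ 28 * δ := by rw [hS]; linarith
  have hS0 : 0 < S := by linarith
  have hp : 0 < S + q := by linarith
  have hm : 0 < S - q := by linarith
  -- first quotient
  have h1 : 27 / 512 / (S + q) - 1 ≤ d₁ / U₁ := by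
    have h2 : (3 / 64 - 12 * δ) / (8 / 9 * (S + q)) ≤ d₁ / U₁ := by
      have hd₁0 : 0 ≤ 3 / 64 - 12 * δ := by linarith
      refine div_le_div₀ (by linarith) hd₁ hU₁ ?_
      rw [hS]
      linarith
    refine le_trans ?_ h2
    rw [le_div_iff₀ (by positivity)]
    have h3 : (27 / 512 / (S + q) - 1) * (8 / 9 * (S + q)) = 8 / 9 * (27 / 512) - 8 / 9 * (S + q) := by
      field_simp
    rw [h3]
    linarith
  have h2 : 27 / 512 / (S - q) ≤ d₂ / U₂ := by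
    refine div_le_div₀ (by linarith) hd₂ hU₂ ?_
    rw [hS]
    linarith
  -- the sum
  have h3 : 27 / 256 / S * (1 + q ^ 2 / S ^ 2) ≤ 27 / 512 / (S + q) + 27 / 512 / (S - q) := by
    have h4 : 27 / 512 / (S + q) + 27 / 512 / (S - q) = 27 / 256 * S / ((S + q) * (S - q)) := by
      field_simp
      ring
    rw [h4, le_div_iff₀ (by positivity)]
    have h5 : 27 / 256 / S * (1 + q ^ 2 / S ^ 2) * ((S + q) * (S - q)) =
        27 / 256 * S * (1 - (q ^ 2 / S ^ 2) ^ 2) := by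
      field_simp
      ring
    rw [h5]
    have h6 := sq_nonneg (q ^ 2 / S ^ 2)
    nlinarith
  have h4 : 1 / (256 * δ) - N' ≤ 27 / 256 / S := by
    rw [le_div_iff₀ hS0, hS, hw]
    have h5 : (1 / (256 * δ) - N') * (27 * δ + 2 * N' * 1024 * δ ^ 2) =
        27 / 256 + 8 * N' * δ - 27 * N' * δ - 2048 * N' ^ 2 * δ ^ 2 := by
      field_simp
      ring
    rw [h5]
    have h6 : 0 ≤ N' * δ := by positivity
    have h7 : 0 ≤ N' ^ 2 * δ ^ 2 := by positivity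
    linarith
  have h5 : η ^ 2 / (32768 * δ ^ 3) ≤ 27 / 256 / S * (q ^ 2 / S ^ 2) := by
    have h6 : 27 / 256 / S * (q ^ 2 / S ^ 2) = 27 / 256 * q ^ 2 / S ^ 3 := by
      field_simp
    rw [h6]
    have h7 : 27 / 256 * (9 * η ^ 2) / (28 * δ) ^ 3 ≤ 27 / 256 * q ^ 2 / S ^ 3 := by
      refine div_le_div₀ (by positivity) (by linarith) (by positivity) ?_
      exact pow_le_pow_left₀ hS0.le hS2 3
    refine le_trans ?_ h7
    rw [div_le_div_iff₀ (by positivity) (by positivity)]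
    have h8 : 0 < η ^ 2 * δ ^ 3 := by positivity
    nlinarith
  have h6 : 27 / 256 / S * (1 + q ^ 2 / S ^ 2) = 27 / 256 / S + 27 / 256 / S * (q ^ 2 / S ^ 2) := by
    ring
  rw [h6] at h3
  linarith

theorem up_num {δ w N' v₁ v₂ d₁ d₂ : ℝ} (hδ : 0 < δ) (hδ' : δ ≤ 1 / 2 ^ 20)
    (hw : w = 2 * N' * 1024 * δ ^ 2) (hN : 0 ≤ N') (hw' : w ≤ δ / 1000)
    (hv₁ : 24 * δ - w ≤ v₁) (hv₂ : 27 * δ - w ≤ v₂) (hd₁ : d₁ ≤ 3 / 64)
    (hd₂ : d₂ ≤ 27 / 512 + 19 * δ) (hd₂' : 0 ≤ d₂) (hd₁' : 0 ≤ d₁) :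
    d₁ / v₁ + d₂ / v₂ ≤ 1 / (256 * δ) + 2 * N' + 1 := by
  have hw0 : 0 ≤ w := by rw [hw]; positivity
  norm_num at hδ'
  have hv₁0 : 0 < v₁ := by linarith
  have hv₂0 : 0 < v₂ := by linarith
  have hNδ : 0 ≤ N' * δ := by positivity
  have hNδ' : N' * δ ^ 2 ≤ δ / 2048000 := by
    have : w = 2048 * (N' * δ ^ 2) := by rw [hw]; ring
    linarith
  have h1 : d₁ / v₁ ≤ 1 / (512 * δ) + N' := by
    rw [div_le_iff₀ hv₁0]
    refine le_trans ?_ (mul_le_mul_of_nonneg_left hv₁ (by positivity))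
    rw [hw]
    have h5 : (1 / (512 * δ) + N') * (24 * δ - 2 * N' * 1024 * δ ^ 2) =
        3 / 64 - 4 * N' * δ + 24 * N' * δ - 2048 * N' * (N' * δ ^ 2) := by
      field_simp
      ring
    rw [h5]
    have h6 : N' * (N' * δ ^ 2) ≤ N' * (δ / 2048000) := mul_le_mul_of_nonneg_left hNδ' hN
    nlinarith
  have h2 : d₂ / v₂ ≤ 1 / (512 * δ) + N' + 1 := by
    rw [div_le_iff₀ hv₂0]
    refine le_trans ?_ (mul_le_mul_of_nonneg_left hv₂ (by positivity))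
    rw [hw]
    have h5 : (1 / (512 * δ) + N' + 1) * (27 * δ - 2 * N' * 1024 * δ ^ 2) =
        27 / 512 - 4 * N' * δ + 27 * N' * δ - 2048 * N' * (N' * δ ^ 2) + 27 * δ
          - 2048 * (N' * δ ^ 2) := by
      field_simp
      ring
    rw [h5]
    have h6 : N' * (N' * δ ^ 2) ≤ N' * (δ / 2048000) := mul_le_mul_of_nonneg_left hNδ' hN
    nlinarith
  have h3 : 1 / (256 * δ) = 1 / (512 * δ) + 1 / (512 * δ) := by
    field_simp
    norm_num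
  rw [h3]
  linarith

end Pool.Agent.Helper20.Flip.Sh
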