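import Pool.Agent.Helper20.Flip.Par

/-!
# SHORTEST: the polygons of the reduction
-/

set_option autoImplicit false

namespace Pool.Agent.Helper20.Flip.Sh

/-- Data of the reduction: an instance `a 1, …, a n`, `T` of SUBSET SUM, the exponents `h`, `g`
(`η = 2 ^ (-h)` is the unit of the small velocity differences, `τ = 2 ^ (-g)` the scale of the
angles) and a bound `s` for the number of bits. -/
structure Par where
  n : ℕ
  a : ℕ → ℕ
  T : ℕ
  s : ℕ
  h : ℕ
  g : ℕ
  ha : ∀ j, 0 < a j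
  ha' : ∀ j, n < j → a j = 1
  hs : ∑ j ∈ Finset.Icc 1 n, a j < 2 ^ s
  hT : T < 2 ^ s
  hh : h = 4 * s + 3 * n + 100
  hg : g = 2 * h + 3 * n + 60

namespace Par

variable (P : Par)

noncomputable def η : ℝ := 1 / 2 ^ P.h
noncomputable def τ : ℝ := 1 / 2 ^ P.g
/-- nominal velocity of the wall `j` -/
noncomputable def R (j : ℕ) : ℝ := 2 * 4 ^ j
/-- nominal length of the tiny edge `j` -/
noncomputable def ε (j : ℕ) : ℝ := 4 * P.η * P.a j / 4 ^ j
/-- unit of the small velocities: `2 ^ s η` -/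
noncomputable def δ : ℝ := P.η * 2 ^ P.s
/-- number of edges -/
def N : ℕ := 2 * P.n + 10

/-- initial velocities of the edges `Z`, `A`, `B` (the edges `p`, `r` have the velocities `1 / 128`
and `315 / 512`) -/
noncomputable def vZ : ℝ := -(5 / 128) - 16 * P.δ
noncomputable def vA : ℝ := 27 / 128
noncomputable def vB : ℝ := 9 / 16 - 45 * P.δ

/-- the vectors of the first five edges `Z`, `p`, `A`, `B`, `r` -/
noncomputable def preV : List Pt :=
  [(1, P.τ * P.vZ), (P.η ^ 3, P.η ^ 3 * (P.τ * (1 / 128))), (1, P.τ * vA),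
   (1 / 4, 1 / 4 * (P.τ * P.vB)), (P.η ^ 3, P.η ^ 3 * (P.τ * (315 / 512)))]

/-- the first five edges -/
noncomputable def pre : List Edge := P.preV.map toEdge

/-- the vectors of the edges number `j`, `1 ≤ j ≤ n + 2` -/
noncomputable def pair (j : ℕ) : List Pt :=
  [(1, P.τ * (if j = P.n + 2 then -(3 * P.η * P.T) else R j)), (P.ε j, P.ε j * (P.τ * (R j / 2)))]

/-- the vectors of the edges of the initial chain -/
noncomputable def vecs : List Pt :=
  P.preV ++ (1, P.τ * R 0) :: (List.range (P.n + 2)).flatMap fun i => P.pair (i + 1)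

/-- the initial chain -/
noncomputable def chain0 : List Edge := P.vecs.map toEdge

/-- the vertices of the polygon -/
noncomputable def vtx (k : ℕ) : Pt := if k ≤ P.N then (P.vecs.take k).sum else (0, 4 * ((P.N : ℝ) + 1))

/-- the number of flips in the question -/
def K : ℕ := 2 ^ (P.h - P.s - 8) + 2 ^ (P.h - 3 * P.s - 16)

/-- the subset sum selected by `f` -/
def ssum (f : ℕ → Bool) : ℕ := ∑ j ∈ Finset.Icc 1 P.n, if f j then P.a j else 0

/-- the states at the end of the first phase (the pulse has arrived at the wall `0`) -/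
def AtZero (f : ℕ → Bool) (c : List Edge) : Prop :=
  ∃ (lu q : ℝ) (rest : List Edge),
    c = P.pre ++ (lu, P.τ * q) :: rest ∧ c.length = P.N ∧
    (1 ≤ lu ∧ lu ≤ 1 + P.η ^ 3) ∧
    |q - 3 * P.η * (P.ssum f - P.T)| ≤ (P.n + 3) * (1024 * P.δ ^ 2) ∧
    Sorted rest ∧ ∀ e ∈ rest, 0 < e.1 ∧ e.1 ≤ 2 ∧ P.τ * (3 / 2) ≤ e.2 ∧ e.2 ≤ 1 / 100

/-! ### the macro phase: states -/

/-- A state: the velocities of the walls `0, …, M` and of the tiny edges `1, …, M`, where
`M = n + 2`. -/
structure St where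
  vw : ℕ → ℝ
  vt : ℕ → ℝ

def M : ℕ := P.n + 2

noncomputable def Lw (j : ℕ) : ℝ :=
  (toEdge (1, P.τ * (if j = P.n + 2 then -(3 * P.η * P.T) else R j))).1
noncomputable def Lt (j : ℕ) : ℝ := (toEdge (P.ε j, P.ε j * (P.τ * (R j / 2)))).1

/-- wall number `j` -/
noncomputable def w (st : St) (j : ℕ) : Edge := (P.Lw j, P.τ * st.vw j)
/-- tiny edge number `j` -/
noncomputable def t (st : St) (j : ℕ) : Edge := (P.Lt j, P.τ * st.vt j)
/-- there is no tiny edge number `0` -/
noncomputable def tl (st : St) (j : ℕ) : List Edge := if j = 0 then [] else [P.t st j]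
noncomputable def seg (st : St) (j : ℕ) : List Edge := P.w st j :: P.tl st j

/-- the chain of a state -/
noncomputable def chain (st : St) : List Edge :=
  P.pre ++ (List.range (P.M + 1)).flatMap (P.seg st)

/-- nominal velocity of the tiny edge `j`, when the pulse is at the wall `J` and `f` is the set of
tiny edges that have been flipped -/
noncomputable def tnom (J : ℕ) (f : ℕ → Bool) (j : ℕ) : ℝ :=
  if f j then (if j < J then 3 / 2 * R j else if j = J then - (R j / 2) else 3 / 4 * R j)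
  else R j / 2

/-- rough description of the states of the macro phase -/
structure Coarse (J : ℕ) (f : ℕ → Bool) (st : St) : Prop where
  hJ : J ≤ P.M
  hf : ∀ j, f j = true → 1 ≤ j ∧ j ≤ P.n
  hw1 : ∀ j, j < J → |st.vw j - R j| ≤ 1 / 64
  hw2 : |st.vw J| ≤ 1 / 32
  hw3 : ∀ j, J < j → j ≤ P.M → |st.vw j - R (j - 1)| ≤ 1 / 64
  ht : ∀ j, 1 ≤ j → j ≤ P.M → |st.vt j - tnom J f j| ≤ 1 / 64

/-- the small pocket number `j` -/
noncomputable def vblock (st : St) (j : ℕ) : List Edge := [P.w st j, P.t st j]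

/-- the big pocket when the pulse is at the wall `J ≥ 1` -/
noncomputable def mblock (J : ℕ) (f : ℕ → Bool) (st : St) : List Edge :=
  P.seg st (J - 1) ++ [P.w st J] ++ (if f J then P.tl st J else [])

/-- direction of the small pocket, as a velocity -/
noncomputable def sV (st : St) (j : ℕ) : ℝ := dir (P.vblock st j) / P.τ
/-- direction of the big pocket, as a velocity -/
noncomputable def sF (J : ℕ) (f : ℕ → Bool) (st : St) : ℝ := dir (P.mblock J f st) / P.τ

/-- the state after the flip of the small pocket `j` -/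
noncomputable def stV (st : St) (j : ℕ) : St where
  vw := Function.update st.vw j (2 * P.sV st j - st.vw j)
  vt := Function.update st.vt j (2 * P.sV st j - st.vt j)

/-- the state after the flip of the big pocket -/
noncomputable def stF (J : ℕ) (f : ℕ → Bool) (st : St) : St where
  vw := fun j => if j = J - 1 ∨ j = J then 2 * P.sF J f st - st.vw j else st.vw j
  vt := fun j => if j = J - 1 ∨ (j = J ∧ f J = true) then 2 * P.sF J f st - st.vt j else st.vt j

end Par

/-! ### the endgame -/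

/-- hypotheses on the lengths of the first six edges `Z, p, A, B, r, U` and on the rest; `e` is a
bound for the round-off -/
structure EState (N : ℕ) (τ e lz lp la lb lr lu : ℝ) (rest : List Edge) : Prop where
  hN : rest.length + 6 = N
  he : e ≤ 1 / 2 ^ 40
  hτ : 0 < τ
  hτ' : τ ≤ 1 / 200
  hτe : τ ^ 2 ≤ e
  hlz : 1 ≤ lz ∧ lz ≤ 2
  hlp : 0 < lp ∧ lp ≤ e
  hla : 1 ≤ la ∧ la ≤ 1 + e
  hlb : 1 / 4 ≤ lb ∧ lb ≤ 1 / 4 * (1 + e)
  hlr : 0 < lr ∧ lr ≤ e
  hlu : 1 ≤ lu ∧ lu ≤ 1 + e
  hrest : Sorted rest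
  hrest' : ∀ e ∈ rest, 0 < e.1 ∧ e.1 ≤ 2 ∧ τ * (3 / 2) ≤ e.2 ∧ e.2 ≤ 1 / 100

/-- the chain with the velocities `z, p, a, b, r, u` of the first six edges -/
def ech (τ lz lp la lb lr lu : ℝ) (rest : List Edge) (z p a b r u : ℝ) : List Edge :=
  (lz, τ * z) :: (lp, τ * p) :: (la, τ * a) :: (lb, τ * b) :: (lr, τ * r) :: (lu, τ * u) :: rest

/-- the ranges of the velocities in the twin phase -/
structure TRange (z p a b r u : ℝ) : Prop where
  hz : -(1 / 8) ≤ z
  hza : z < a
  ha : a ≤ 1 / 16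
  hp : -(1 / 8) ≤ p
  hp' : p ≤ 1 / 16
  hb : 1 / 4 ≤ b
  hbu : b < u
  hu : u ≤ 1 / 2
  hr : 1 / 4 ≤ r
  hr' : r ≤ 1 / 2

end Pool.Agent.Helper20.Flip.Sh
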