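import Pool.Agent.Helper97.Flip.TLow
import Pool.Agent.Helper41.Flip.TUp
import Pool.Agent.Helper62.Flip.Geo4
import Pool.Agent.Helper28.Flip.EStart
import Pool.Agent.Helper42.Flip.SRed
import Pool.Agent.Helper20.Flip.Sh.Macro
import Pool.Agent.Helper20.Flip.Sh.Num
import Pool.Agent.Helper20.Flip.Assemble

/-!
# SHORTEST: the assembly
-/

set_option autoImplicit false

namespace Pool.Agent.Helper20.Flip.Sh

/-- lower bound for the length of convexifying sequences from a rank function -/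
theorem rank_low {N : ℕ} {G : ℕ → List Edge → Prop} (hG : ∀ r c, G r c → Ok N c)
    (h0 : ∀ r c, G r c → 0 < r → ¬ WSorted c)
    (hs : ∀ r c c', G r c → CStep c c' → ∃ r', r ≤ r' + 1 ∧ G r' c') {m : ℕ}
    {V V' : ZMod (N + 2) → Pt} (h : FlipSeq m V V') (hc : IsConvex V') :
    ∀ r c, G r c → V = polyOf N c → r ≤ m := by
  induction h with
  | refl V =>
    rintro r c hr rfl
    by_contra hlt
    exact h0 r c hr (by omega) (wsorted_of_convex (hG r c hr) hc)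
  | step i l hp _ _ ih =>
    rintro r c hr rfl
    obtain ⟨X, B, Y, rfl, hb, hi, hl⟩ := hullBlock_of_isPocket (hG r c hr) hp
    subst hl
    subst hi
    obtain ⟨r', hr', hG'⟩ := hs r _ _ hr ⟨X, B, Y, rfl, hb, rfl⟩
    have := ih hc r' _ hG' (flip_polyOf (hG _ _ hr) hb.1)
    omega

namespace Par
variable (P : Par)

theorem δ_real : 1 / (256 * P.δ) = (2 : ℝ) ^ (P.h - P.s - 8) := by
  have h1 : P.h = (P.h - P.s - 8) + P.s + 8 := by have := P.hh; omega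
  have h2 : (2 : ℝ) ^ P.h = 2 ^ (P.h - P.s - 8) * 2 ^ P.s * 256 := by
    rw [show (256 : ℝ) = 2 ^ 8 by norm_num, ← pow_add, ← pow_add, ← h1]
  unfold δ η
  rw [h2]
  field_simp

theorem δ_real' : P.η ^ 2 / (65536 * P.δ ^ 3) = (2 : ℝ) ^ (P.h - 3 * P.s - 16) := by
  have h1 : P.h = (P.h - 3 * P.s - 16) + 3 * P.s + 16 := by have := P.hh; omega
  have h2 : (2 : ℝ) ^ P.h = 2 ^ (P.h - 3 * P.s - 16) * (2 ^ P.s) ^ 3 * 65536 := by
    rw [show (65536 : ℝ) = 2 ^ 16 by norm_num, ← pow_mul, ← pow_add, ← pow_add, mul_comm P.s 3, ← h1]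
  unfold δ η
  rw [h2]
  field_simp

theorem K_real : (P.K : ℝ) = 1 / (256 * P.δ) + P.η ^ 2 / (65536 * P.δ ^ 3) := by
  unfold K
  push_cast
  rw [P.δ_real, P.δ_real']

theorem slack : (4 : ℝ) * P.n + 20 ≤ P.η ^ 2 / (65536 * P.δ ^ 3) := by
  rw [P.δ_real']
  have h1 : 4 * P.n + 20 ≤ 2 ^ (P.h - 3 * P.s - 16) := by
    have h2 : P.n + 5 < 2 ^ (P.n + 5) := Nat.lt_two_pow_self
    have h3 : 2 ^ (P.n + 7) ≤ 2 ^ (P.h - 3 * P.s - 16) :=
      Nat.pow_le_pow_right (by norm_num) (by have := P.hh; omega)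
    have h4 : 2 ^ (P.n + 7) = 4 * 2 ^ (P.n + 5) := by rw [pow_add, pow_add]; ring
    omega
  exact_mod_cast h1

/-- the tolerance for the pulse -/
noncomputable def w0 : ℝ := 2 * ((P.n : ℝ) + 3) * 1024 * P.δ ^ 2

theorem δsq_le2 : ((P.n : ℝ) + 3) * (1024 * P.δ ^ 2) ≤ P.η / 2 ^ 20 := by
  have h1 := P.η_le
  have h2 : P.δ ^ 2 = P.η * (P.η * 2 ^ (2 * P.s)) := by
    unfold δ
    rw [mul_pow, ← pow_mul, mul_comm 2 P.s]
    ring
  rw [h2]
  have h3 : ((P.n : ℝ) + 3) ≤ 2 ^ (3 * P.n + 3) := by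
    have : P.n + 3 ≤ 2 ^ (3 * P.n + 3) := by
      have h4 : P.n + 3 < 2 ^ (P.n + 3) := Nat.lt_two_pow_self
      have h5 : 2 ^ (P.n + 3) ≤ 2 ^ (3 * P.n + 3) := Nat.pow_le_pow_right (by norm_num) (by omega)
      omega
    exact_mod_cast this
  have hη := P.η_pos
  have h6 : ((P.n : ℝ) + 3) * (1024 * 2 ^ 20) * (P.η * 2 ^ (2 * P.s)) ≤ 1 := by
    calc ((P.n : ℝ) + 3) * (1024 * 2 ^ 20) * (P.η * 2 ^ (2 * P.s))
        ≤ 2 ^ (3 * P.n + 3) * 2 ^ 57 * (P.η * 2 ^ (2 * P.s)) := by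
          gcongr
          norm_num
      _ = P.η * 2 ^ (2 * P.s + 3 * P.n + 60) := by ring
      _ ≤ 1 := h1
  have : ((P.n : ℝ) + 3) * (1024 * (P.η * (P.η * 2 ^ (2 * P.s)))) =
      P.η / 2 ^ 20 * (((P.n : ℝ) + 3) * (1024 * 2 ^ 20) * (P.η * 2 ^ (2 * P.s))) := by ring
  rw [this]
  have h7 : 0 < P.η / 2 ^ 20 := by positivity
  nlinarith

theorem w0_le : P.w0 ≤ P.δ / 1000 := by
  have h1 := P.δsq_le2
  have h2 := P.η_le_δ
  norm_num at h1
  unfold w0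
  linarith [P.δpos]

theorem w0_ge : 6144 * P.δ ^ 2 ≤ P.w0 := by
  unfold w0
  have : (0 : ℝ) ≤ P.n := Nat.cast_nonneg _
  nlinarith [sq_nonneg P.δ]

theorem η3_small : 100000 * P.η ^ 3 ≤ P.η ^ 2 := by
  have h1 := P.η_mul_le 100 (by omega)
  have h2 := P.η_pos
  have h3 : P.η ≤ 1 / 100000 := by
    norm_num at h1
    linarith
  have : P.η ^ 3 = P.η ^ 2 * P.η := by ring
  rw [this]
  nlinarith [sq_nonneg P.η]

end Par

/-- the data of the twin phase -/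
theorem twin_data (P : Par) {f : ℕ → Bool} {c : List Edge} (h : P.AtZero f c) :
    ∃ (c₁ : List Edge) (lz lp la lb lr lu : ℝ) (rest : List Edge) (z p a b r u q : ℝ),
      EState P.N P.τ (2 * P.η ^ 3) lz lp la lb lr lu rest ∧ Ok P.N c ∧ Ok P.N c₁ ∧ CStep c c₁ ∧
      (∀ c', CStep c c' → c' = c₁) ∧
      CStep c₁ (ech P.τ lz lp la lb lr lu rest z p a b r u) ∧
      (∀ c', CStep c₁ c' → c' = ech P.τ lz lp la lb lr lu rest z p a b r u) ∧
      |q - 3 * P.η * (P.ssum f - P.T)| ≤ P.w0 / 2 ∧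
      -(1 / 16) ≤ z ∧ a ≤ 0 ∧ 5 / 16 - 1 / 1000 ≤ b ∧ u ≤ 5 / 16 + 1 / 1000 ∧
      |(a - z) - (24 * P.δ + 8 / 9 * q)| ≤ P.η ^ 2 / 8 ∧
      |(p - a) - (3 / 64 - 8 * P.δ - 8 / 9 * q)| ≤ P.η ^ 2 / 8 ∧
      |(u - b) - (27 * P.δ - q)| ≤ P.η ^ 2 / 8 ∧
      |(r - u) - (27 / 512 + 18 * P.δ + q)| ≤ P.η ^ 2 / 8 ∧
      |3 * P.η * ((P.ssum f : ℝ) - P.T)| ≤ 3 * P.δ := by
  obtain ⟨lu, q, rest, rfl, hlen, hlu, hq, hsort, hrest⟩ := h
  obtain ⟨lz, lp, la, lb, lr, z, p, a, b, r, hpre, hlz, hlp, hla, hlb, hlr, hz, hp, ha, hb, hr⟩ := P.preEq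
  have hη := P.η_pos
  have hδ := P.δpos
  have hδη := P.η_le_δ
  have he0 := P.e0_le_η
  have he0' := P.e0_pos
  have hη3 := P.η3_small
  have hη3' : 0 < P.η ^ 3 := by positivity
  have hδ' := P.δ_le''
  norm_num at hδ'
  have hη1 : P.η ≤ 1 / 2 ^ 60 := P.η_le'
  norm_num at hη1
  have hη2 : P.η ^ 2 ≤ P.η / 10 ^ 15 := by nlinarith
  have hb' : P.e0 ≤ 1 := by
    norm_num at hη2
    linarith
  rw [hpre] at hlen ⊢
  -- the pulse
  have hw0 : (P.n + 3) * (1024 * P.δ ^ 2) = P.w0 / 2 := by unfold Par.w0; ring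
  rw [hw0] at hq
  have hw0' := P.w0_le
  have hS : (P.ssum f : ℝ) ≤ 2 ^ P.s := by
    have h0 : P.ssum f ≤ 2 ^ P.s := by
      refine le_trans ?_ P.hs.le
      unfold Par.ssum
      refine Finset.sum_le_sum fun j _ => ?_
      split_ifs <;> simp
    exact_mod_cast h0
  have hT : (P.T : ℝ) ≤ 2 ^ P.s := by exact_mod_cast P.hT.le
  have hS0 : (0 : ℝ) ≤ P.ssum f := Nat.cast_nonneg _
  have hT0 : (0 : ℝ) ≤ P.T := Nat.cast_nonneg _
  have hd : |3 * P.η * ((P.ssum f : ℝ) - P.T)| ≤ 3 * P.δ := by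
    rw [abs_mul, abs_of_pos (by positivity : (0 : ℝ) < 3 * P.η)]
    unfold Par.δ
    have : |(P.ssum f : ℝ) - P.T| ≤ 2 ^ P.s := by
      rw [abs_le]
      constructor <;> linarith
    nlinarith
  have hd' := abs_le.1 hd
  have hq' := abs_le.1 hq
  have hq4 : |q| ≤ 4 * P.δ := by
    rw [abs_le]
    constructor <;> linarith
  have hE : EState P.N P.τ (2 * P.η ^ 3) lz lp la lb lr lu rest :=
    { hN := by simpa using hlen
      he := by
        norm_num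
        norm_num at hη2
        linarith
      hτ := P.τ_pos
      hτ' := P.τ_le
      hτe := by
        have h1 := P.G_ge
        have h2 : P.τ ^ 2 ≤ P.e0 := by
          unfold Par.e0
          have h3 : 1 ≤ P.G ^ 3 := one_le_pow₀ (by linarith)
          nlinarith [sq_nonneg P.τ]
        linarith
      hlz := ⟨hlz.1, by linarith [hlz.2]⟩
      hlp := ⟨hlp.1, by nlinarith [hlp.2]⟩
      hla := ⟨hla.1, by linarith [hla.2]⟩
      hlb := ⟨hlb.1, by linarith [hlb.2]⟩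
      hlr := ⟨hlr.1, by nlinarith [hlr.2]⟩
      hlu := ⟨hlu.1, by linarith [hlu.2]⟩
      hrest := hsort
      hrest' := hrest }
  have hvZ : P.vZ = -(5 / 128) - 16 * P.δ := rfl
  have hvA : Par.vA = 27 / 128 := rfl
  have hvB : P.vB = 9 / 16 - 45 * P.δ := rfl
  rw [hvZ] at hz
  rw [hvA] at ha
  rw [hvB] at hb
  obtain ⟨c₁, a₂, b₂, r₂, u₂, h1, h2, h3, h4, h5, h6, h7, h8, h9, h10⟩ :=
    estart hE hδ.le (by norm_num; linarith) hq4 (hz.trans (by linarith)) (hp.trans (by linarith))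
      (ha.trans (by linarith)) (hb.trans (by linarith)) (hr.trans (by linarith))
  have k7 := abs_le.1 h7
  have k8 := abs_le.1 h8
  have k9 := abs_le.1 h9
  have k10 := abs_le.1 h10
  have kz := abs_le.1 hz
  have kp := abs_le.1 hp
  have kq := abs_le.1 hq4
  refine ⟨c₁, lz, lp, la, lb, lr, lu, rest, z, p, a₂, b₂, r₂, u₂, q, hE, h1, h2, h3, h4, h5, h6, hq,
    ?_, ?_, ?_, ?_, ?_, ?_, ?_, ?_, hd⟩
  · linarith
  · linarith
  · linarith
  · linarith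
  · rw [abs_le]
    constructor <;> linarith
  · rw [abs_le]
    constructor <;> linarith
  · rw [abs_le]
    constructor <;> linarith
  · rw [abs_le]
    constructor <;> linarith

theorem num_facts {δ η w q q₀ v₁ d₁ v₂ d₂ : ℝ} (hη : 0 < η) (hηδ : η ≤ δ) (hδ : δ ≤ 1 / 10 ^ 20)
    (hη2 : η ^ 2 ≤ δ / 10 ^ 20) (hη3 : 6144 * η ^ 2 ≤ w) (hw : w ≤ δ / 1000)
    (hq₀ : |q₀| ≤ 3 * δ) (hq : |q - q₀| ≤ w / 2) (k1 : |v₁ - (24 * δ + 8 / 9 * q)| ≤ η ^ 2 / 8)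
    (k2 : |d₁ - (3 / 64 - 8 * δ - 8 / 9 * q)| ≤ η ^ 2 / 8) (k3 : |v₂ - (27 * δ - q)| ≤ η ^ 2 / 8)
    (k4 : |d₂ - (27 / 512 + 18 * δ + q)| ≤ η ^ 2 / 8) :
    (20 * η ≤ v₁ ∧ v₁ + η ^ 2 / 8 ≤ 1 / 100 ∧ 0 < d₁ ∧ d₁ ≤ 1 / 20 ∧ 20 * η ≤ v₂ ∧
      v₂ + η ^ 2 / 8 ≤ 1 / 1000 ∧ 0 < d₂ ∧ d₂ ≤ 1 / 18 ∧ 3 / 64 - 12 * δ ≤ d₁ ∧ 27 / 512 ≤ d₂) ∧
    v₁ + η ^ 2 / 8 ≤ 8 / 9 * (27 * δ + q₀ + w) ∧ v₂ + η ^ 2 / 8 ≤ 27 * δ - q₀ + w ∧
    (q₀ = 0 → 24 * δ - w ≤ v₁ ∧ 27 * δ - w ≤ v₂ ∧ d₁ ≤ 3 / 64 ∧ d₂ ≤ 27 / 512 + 19 * δ) := by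
  obtain ⟨a1, a2⟩ := abs_le.1 hq₀
  obtain ⟨b1, b2⟩ := abs_le.1 hq
  obtain ⟨c1, c2⟩ := abs_le.1 k1
  obtain ⟨d1, d2⟩ := abs_le.1 k2
  obtain ⟨e1, e2⟩ := abs_le.1 k3
  obtain ⟨f1, f2⟩ := abs_le.1 k4
  norm_num at hδ hη2
  have hη2' : 0 < η ^ 2 := by positivity
  refine ⟨⟨?_, ?_, ?_, ?_, ?_, ?_, ?_, ?_, ?_, ?_⟩, ?_, ?_, ?_⟩
  · linarith
  · linarith
  · linarith
  · linarith
  · linarith
  · linarith
  · linarith
  · linarith
  · linarith
  · linarith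
  · linarith
  · linarith
  · intro h0
    rw [h0] at b1 b2
    refine ⟨?_, ?_, ?_, ?_⟩
    · linarith
    · linarith
    · linarith
    · linarith

/-- the correction terms of the gaps -/
theorem corr_le {η L C d v : ℝ} (hη : 0 < η) (hL : 0 ≤ L) (hL' : L ≤ 2 * η ^ 3) (_ : 0 ≤ C)
    (hC' : C ≤ 32) (hd : 0 < d) (hd' : d ≤ 1 / 18) (hv : 20 * η ≤ v) :
    C * L * d ^ 2 / v ≤ η ^ 2 / 8 := by
  have hv0 : 0 < v := by linarith
  rw [div_le_iff₀ hv0]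
  have h1 : d ^ 2 ≤ 1 / 18 ^ 2 := by
    rw [one_div, ← inv_pow]
    exact pow_le_pow_left₀ hd.le (by linarith) 2
  have h2 : C * L * d ^ 2 ≤ 32 * (2 * η ^ 3) * (1 / 18 ^ 2) := by
    refine mul_le_mul (mul_le_mul hC' hL' hL (by norm_num)) h1 (by positivity) (by positivity)
  have h3 : η ^ 2 / 8 * (20 * η) ≤ η ^ 2 / 8 * v := mul_le_mul_of_nonneg_left hv (by positivity)
  have h4 : η ^ 2 / 8 * (20 * η) = 20 / 8 * η ^ 3 := by ring
  have h5 : 0 < η ^ 3 := by positivity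
  norm_num at h2
  linarith

theorem num_par (P : Par) : P.δ ≤ 1 / 10 ^ 20 ∧ P.η ^ 2 ≤ P.δ / 10 ^ 20 ∧ 6144 * P.η ^ 2 ≤ P.w0 := by
  have hη := P.η_pos
  have hδ := P.δpos
  have hδη := P.η_le_δ
  have hδ' := P.δ_le''
  have hη2δ : P.η ^ 2 ≤ P.δ ^ 2 := pow_le_pow_left₀ hη.le hδη 2
  have hw2 := P.w0_ge
  refine ⟨hδ'.trans (by norm_num), ?_, by linarith⟩
  refine hη2δ.trans ?_
  have : P.δ ≤ 1 / 10 ^ 20 := hδ'.trans (by norm_num)
  norm_num at this ⊢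
  nlinarith

theorem low_count (P : Par) {f : ℕ → Bool} (hno : P.ssum f ≠ P.T) {c : List Edge}
    (hf : P.AtZero f c) : ∃ G : ℕ → List Edge → Prop, G (P.K + 1) c ∧
      (∀ r c, G r c → Ok P.N c) ∧ (∀ r c, G r c → 0 < r → ¬ WSorted c) ∧
      ∀ r c c', G r c → CStep c c' → ∃ r', r ≤ r' + 1 ∧ G r' c' := by
  have hη := P.η_pos
  have hδ := P.δpos
  have hδη := P.η_le_δ
  obtain ⟨hδ', hη2, hη3⟩ := num_par P
  have hw1 := P.w0_le
  have hn : (0 : ℝ) ≤ P.n := Nat.cast_nonneg _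
  obtain ⟨c₁, lz, lp, la, lb, lr, lu, rest, z, p, a, b, r, u, q, hE, hok, hok₁, hs1, hu1, hs2,
    hu2, hq, hz, ha, hb, hu, h1, h2, h3, h4, hd⟩ := twin_data P hf
  obtain ⟨⟨m1, m2, m3, m4, m5, m6, m7, m8, m9, m10⟩, m11, m12, -⟩ :=
    num_facts hη hδη hδ' hη2 hη3 hw1 hd hq h1 h2 h3 h4
  have hv1 : 0 < a - z := lt_of_lt_of_le (by positivity) m1
  have hv2 : 0 < u - b := lt_of_lt_of_le (by positivity) m5
  have hη2' : 0 < P.η ^ 2 := by positivity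
  have hU1 : (a - z) + 8 * lp * (p - a) ^ 2 / (a - z) ≤ a - z + P.η ^ 2 / 8 :=
    add_le_add_right (corr_le hη hE.hlp.1.le hE.hlp.2 (by norm_num) (by norm_num) m3
      (m4.trans (by norm_num)) m1) _
  have hU2 : (u - b) + 32 * lr * (r - u) ^ 2 / (u - b) ≤ u - b + P.η ^ 2 / 8 :=
    add_le_add_right (corr_le hη hE.hlr.1.le hE.hlr.2 (by norm_num) (by norm_num) m7 m8 m5) _
  have hU1pos : 0 < a - z + P.η ^ 2 / 8 := by positivity
  have hU2pos : 0 < u - b + P.η ^ 2 / 8 := by positivity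
  set k₁ : ℕ := ⌊(p - a) / (a - z + P.η ^ 2 / 8)⌋₊ with hk₁
  set k₂ : ℕ := ⌊(r - u) / (u - b + P.η ^ 2 / 8)⌋₊ with hk₂
  have hk₁' : (k₁ : ℝ) * (a - z + P.η ^ 2 / 8) ≤ p - a := by
    rw [← le_div_iff₀ hU1pos]
    exact Nat.floor_le (div_nonneg m3.le hU1pos.le)
  have hk₂' : (k₂ : ℝ) * (u - b + P.η ^ 2 / 8) ≤ r - u := by
    rw [← le_div_iff₀ hU2pos]
    exact Nat.floor_le (div_nonneg m7.le hU2pos.le)
  have hk₁'' : (p - a) / (a - z + P.η ^ 2 / 8) - 1 < k₁ := Nat.sub_one_lt_floor _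
  have hk₂'' : (r - u) / (u - b + P.η ^ 2 / 8) - 1 < k₂ := Nat.sub_one_lt_floor _
  obtain ⟨G, hG0, hG1, hG2, hG3⟩ := twin_low hE (z := z) (p := p) (a := a) (b := b) (r := r)
    (u := u) (d₁ := p - a) (v₁ := a - z) (d₂ := r - u) (v₂ := u - b) hz ha (by ring) rfl
    hv1 m3 m4 hU1 m2 hb hu (by ring) rfl hv2 m7 m8 hU2 m6 hk₁' hk₂'
  have hsum : P.K + 1 ≤ k₁ + k₂ := by
    have hΔ : 9 * P.η ^ 2 ≤ (3 * P.η * ((P.ssum f : ℝ) - P.T)) ^ 2 := by
      have h5 : (1 : ℝ) ≤ ((P.ssum f : ℝ) - P.T) ^ 2 := by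
        rcases lt_or_gt_of_ne hno with hlt | hgt
        · have h3 : (P.ssum f : ℝ) + 1 ≤ P.T := by exact_mod_cast hlt
          nlinarith only [h3]
        · have h3 : (P.T : ℝ) + 1 ≤ P.ssum f := by exact_mod_cast hgt
          nlinarith only [h3]
      have h6 : (3 * P.η * ((P.ssum f : ℝ) - P.T)) ^ 2 =
          9 * P.η ^ 2 * ((P.ssum f : ℝ) - P.T) ^ 2 := by ring
      rw [h6]
      exact le_mul_of_one_le_right (by positivity) h5
    have hlow := low_num (δ := P.δ) (η := P.η) (w := P.w0)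
      (q := 3 * P.η * ((P.ssum f : ℝ) - P.T)) (N' := (P.n : ℝ) + 3)
      (U₁ := a - z + P.η ^ 2 / 8) (U₂ := u - b + P.η ^ 2 / 8) (d₁ := p - a) (d₂ := r - u)
      hδ (hδ'.trans (by norm_num)) hη rfl (by linarith only [hn]) hw1 hΔ hd hU1pos m11 hU2pos
      m12 m9 m10
    have h5 : P.η ^ 2 / (32768 * P.δ ^ 3) = 2 * (P.η ^ 2 / (65536 * P.δ ^ 3)) := by
      field_simp
      norm_num
    rw [h5] at hlow
    have hK := P.K_real
    have hsl := P.slack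
    have h6 : (P.K : ℝ) + 1 ≤ k₁ + k₂ := by linarith only [hK, hsl, hlow, hk₁'', hk₂'', hn]
    exact_mod_cast h6
  refine ⟨fun r' c' => (r' ≤ P.K + 1 ∧ (c' = c ∨ c' = c₁)) ∨ G r' c', ?_, ?_, ?_, ?_⟩
  · left
    exact ⟨le_rfl, Or.inl rfl⟩
  · rintro r' c' (⟨-, rfl | rfl⟩ | h)
    · exact hok
    · exact hok₁
    · exact hG1 _ _ h
  · rintro r' c' (⟨-, rfl | rfl⟩ | h) hr'
    · exact fun hw => not_cstep_of_wsorted hok hw hs1
    · exact fun hw => not_cstep_of_wsorted hok₁ hw hs2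
    · exact hG2 _ _ h hr'
  · rintro r' c' c'' (⟨hr', rfl | rfl⟩ | h) hstep
    · rw [hu1 _ hstep]
      exact ⟨r', by omega, Or.inl ⟨hr', Or.inr rfl⟩⟩
    · rw [hu2 _ hstep]
      exact ⟨k₁ + k₂, by omega, Or.inr hG0⟩
    · obtain ⟨r'', h5, h6⟩ := hG3 _ _ _ h hstep
      exact ⟨r'', h5, Or.inr h6⟩

theorem up_count (P : Par) {f : ℕ → Bool} (hyes : P.ssum f = P.T) {c : List Edge}
    (hf : P.AtZero f c) :
    ∃ m c', 2 * P.n + 2 + m ≤ P.K ∧ CSeq P.N m c c' ∧ WSorted c' := by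
  have hη := P.η_pos
  have hδ := P.δpos
  have hδη := P.η_le_δ
  obtain ⟨hδ', hη2, hη3⟩ := num_par P
  have hw1 := P.w0_le
  have hn : (0 : ℝ) ≤ P.n := Nat.cast_nonneg _
  obtain ⟨c₁, lz, lp, la, lb, lr, lu, rest, z, p, a, b, r, u, q, hE, hok, hok₁, hs1, hu1, hs2,
    hu2, hq, hz, ha, hb, hu, h1, h2, h3, h4, hd⟩ := twin_data P hf
  obtain ⟨⟨m1, m2, m3, m4, m5, m6, m7, m8, m9, m10⟩, m11, m12, m13⟩ :=
    num_facts hη hδη hδ' hη2 hη3 hw1 hd hq h1 h2 h3 h4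
  obtain ⟨m14, m15, m16, m17⟩ := m13 (by rw [hyes, sub_self, mul_zero])
  have hv1 : 0 < a - z := lt_of_lt_of_le (by positivity) m1
  have hv2 : 0 < u - b := lt_of_lt_of_le (by positivity) m5
  have hη2' : 0 < P.η ^ 2 := by positivity
  have hU1 : (a - z) + 8 * lp * (p - a) ^ 2 / (a - z) ≤ a - z + P.η ^ 2 / 8 :=
    add_le_add_right (corr_le hη hE.hlp.1.le hE.hlp.2 (by norm_num) (by norm_num) m3
      (m4.trans (by norm_num)) m1) _
  have hU2 : (u - b) + 32 * lr * (r - u) ^ 2 / (u - b) ≤ u - b + P.η ^ 2 / 8 :=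
    add_le_add_right (corr_le hη hE.hlr.1.le hE.hlr.2 (by norm_num) (by norm_num) m7 m8 m5) _
  have hd1 : 0 ≤ (p - a) / (a - z) := div_nonneg m3.le hv1.le
  have hd2 : 0 ≤ (r - u) / (u - b) := div_nonneg m7.le hv2.le
  set k₁ : ℕ := ⌈(p - a) / (a - z)⌉₊ with hk₁
  set k₂ : ℕ := ⌈(r - u) / (u - b)⌉₊ with hk₂
  have hk₁' : p - a ≤ (k₁ : ℝ) * (a - z) := by
    rw [← div_le_iff₀ hv1]
    exact Nat.le_ceil _
  have hk₂' : r - u ≤ (k₂ : ℝ) * (u - b) := by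
    rw [← div_le_iff₀ hv2]
    exact Nat.le_ceil _
  have hk₁'' : (k₁ : ℝ) < (p - a) / (a - z) + 1 := Nat.ceil_lt_add_one hd1
  have hk₂'' : (k₂ : ℝ) < (r - u) / (u - b) + 1 := Nat.ceil_lt_add_one hd2
  obtain ⟨m', c', hm', hseq', hsort'⟩ := twin_up hE (z := z) (p := p) (a := a) (b := b) (r := r)
    (u := u) (d₁ := p - a) (v₁ := a - z) (d₂ := r - u) (v₂ := u - b) hz ha (by ring) rfl
    hv1 m3 m4 hU1 m2 hb hu (by ring) rfl hv2 m7 m8 hU2 m6 hk₁' hk₂'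
  have hup := up_num (δ := P.δ) (w := P.w0) (N' := (P.n : ℝ) + 3) (v₁ := a - z) (v₂ := u - b)
    (d₁ := p - a) (d₂ := r - u) hδ (hδ'.trans (by norm_num)) rfl (by linarith only [hn]) hw1 m14
    m15 m16 m17 m7.le m3.le
  have hsum : 2 * P.n + 2 + 2 + (k₁ + k₂) ≤ P.K := by
    have hK := P.K_real
    have hsl := P.slack
    have h5 : (2 : ℝ) * P.n + 2 + 2 + (k₁ + k₂) ≤ P.K := by
      linarith only [hK, hsl, hup, hk₁'', hk₂'', hn]
    exact_mod_cast h5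
  have hok₂ : Ok P.N (ech P.τ lz lp la lb lr lu rest z p a b r u) := by
    norm_num at hδ'
    refine ech_ok hE ⟨?_, ?_, ?_, ?_, ?_, ?_, ?_, ?_, ?_, ?_⟩
    · linarith only [hz]
    · linarith only [hv1]
    · linarith only [ha]
    · linarith only [hz, hv1, m3]
    · linarith only [ha, m16, m14, hw1, hδ, m2, m4, m9, h2, (abs_le.1 h1).1, (abs_le.1 h1).2,
        (abs_le.1 h2).1, (abs_le.1 h2).2, (abs_le.1 h3).1, (abs_le.1 h3).2, (abs_le.1 hq).1]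
    · linarith only [hb]
    · linarith only [hv2]
    · linarith only [hu]
    · linarith only [hb, hv2, m7]
    · linarith only [hu, m8]
  exact ⟨m' + 2, c', by omega, CSeq.step hs1 hok₁ (CSeq.step hs2 hok₂ hseq'), hsort'⟩

theorem shortest_iff (P : Par) :
    Shortest (polyOf P.N P.chain0) P.K ↔ ∃ f, P.ssum f = P.T := by
  constructor
  · rintro ⟨m, hm, V', hseq, hconv⟩
    by_contra hno
    push Not at hno
    set Z : ℕ → List Edge → Prop := fun r c => ∃ G : ℕ → List Edge → Prop, G r c ∧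
      (∀ r c, G r c → Ok P.N c) ∧ (∀ r c, G r c → 0 < r → ¬ WSorted c) ∧
      ∀ r c c', G r c → CStep c c' → ∃ r', r ≤ r' + 1 ∧ G r' c' with hZ
    have hz0 : ∀ f c, P.AtZero f c → Z (P.K + 1) c := fun f c hf => low_count P (hno f) hf
    have hz1 : ∀ r c, Z r c → Ok P.N c := by
      rintro r c ⟨G, hg, h1, -⟩
      exact h1 r c hg
    have hz2 : ∀ r c c', Z r c → CStep c c' → ∃ r', r ≤ r' + 1 ∧ Z r' c' := by
      rintro r c c' ⟨G, hg, h1, h2, h3⟩ hs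
      obtain ⟨r', hr', hg'⟩ := h3 r c c' hg hs
      exact ⟨r', hr', G, hg', h1, h2, h3⟩
    have hz3 : ∀ r c, Z r c → 0 < r → ¬ WSorted c := by
      rintro r c ⟨G, hg, -, h2, -⟩ hr
      exact h2 r c hg hr
    obtain ⟨G, hG0, hG1, hG2, hG3⟩ := macro_no P hz0 hz1 hz2 hz3
    have := rank_low hG1 hG2 hG3 hseq hconv _ _ hG0 rfl
    omega
  · rintro ⟨f, hf⟩
    obtain ⟨m, c, hmn, hmc, hAt⟩ := macro_yes P f
    obtain ⟨m', c', hm', hseq', hsort'⟩ := up_count P hf hAt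
    have hfin := cseq_flipSeq (hmc.trans hseq') (chain0_ok P)
    exact ⟨m + m', by omega, _, hfin.1, poly_convex hfin.2 hsort'⟩

/-! ### the vertices -/

theorem vecs_pos (P : Par) : ∀ v ∈ P.vecs, 0 < v.1 := by
  intro v hv
  have hη := P.η_pos
  unfold Par.vecs Par.preV Par.pair at hv
  simp only [List.mem_append, List.mem_cons, List.mem_flatMap, List.not_mem_nil, or_false] at hv
  rcases hv with (rfl | rfl | rfl | rfl | rfl) | rfl | ⟨i, -, rfl | rfl⟩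
  · exact one_pos
  · simp only; positivity
  · exact one_pos
  · simp only; norm_num
  · simp only; positivity
  · exact one_pos
  · exact one_pos
  · exact P.εpos _

theorem vtx_eq (P : Par) {k : ℕ} (hk : k < P.N + 2) :
    P.vtx k = polyOf P.N P.chain0 (k : ZMod (P.N + 2)) := by
  unfold Par.vtx polyOf
  have : ((k : ZMod (P.N + 2))).val = k := by
    rw [ZMod.val_natCast, Nat.mod_eq_of_lt hk]
  rw [this]
  split_ifs
  · unfold Par.chain0
    rw [← List.map_take, vec_map_toEdge]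
    intro v hv
    exact vecs_pos P v (List.mem_of_mem_take hv)
  · rfl

theorem shortest_of_shortest {n : ℕ} {V : ZMod n → Pt} {r : ℝ} (hr : 0 < r) {k : ℕ}
    (h : Shortest V k) : Shortest (fun i => r • V i) k := by
  obtain ⟨m, hm, V', hV', hc⟩ := h
  exact ⟨m, hm, _, flipSeq_smul hr hV', isConvex_smul hc⟩

theorem shortest_smul {n : ℕ} {V : ZMod n → Pt} {r : ℝ} (hr : 0 < r) (k : ℕ) :
    Shortest (fun i => r • V i) k ↔ Shortest V k := by
  refine ⟨fun h => ?_, shortest_of_shortest hr⟩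
  have := shortest_of_shortest (inv_pos.2 hr) h
  rw [inv_smul_fun V hr] at this
  exact this

theorem transport {m N : ℕ} (hm : m = N + 2) {V : ZMod m → Pt} {c : List Edge} {r : ℝ} (hr : 0 < r)
    (hc : Ok N c) (hV : ∀ k, k < N + 2 → V (k : ZMod m) = r • polyOf N c (k : ZMod (N + 2))) :
    IsSimple V ∧ 0 < area2 V ∧ ∀ K, Shortest V K ↔ Shortest (polyOf N c) K := by
  subst hm
  have h1 : V = fun i => r • polyOf N c i := by
    funext i
    have h2 := hV i.val (ZMod.val_lt i)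
    rwa [ZMod.natCast_zmod_val] at h2
  rw [h1]
  refine ⟨(isSimple_smul hr).2 (poly_simple hc), ?_, fun K => shortest_smul hr K⟩
  rw [area2_smul]
  have := poly_area hc
  positivity

open Pool.Agent.Helper96 in
theorem shortest_hard : NPHard SHORTEST := by
  intro L' hL'
  have hL : InNP L' := hL'
  obtain ⟨f, hf, hpos, hcorr⟩ := subsetSum_hard hL
  obtain ⟨F, hF, hFspec⟩ := exists_red
  refine ⟨fun w => encInst (F (f w)).1 (F (f w)).2, ?_, ?_⟩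
  · refine (Pool.Agent.Helper69.polyTimeFun_iff _).2 ?_
    exact Poly.encInst' (Poly.fst (hF.comp hf)) (Poly.snd (hF.comp hf))
  · intro w
    rw [hcorr w, sum_iff]
    obtain ⟨P, S, hn, ha, hT, hlen, hden, hval, hvtx⟩ := hFspec (f w) (hpos w)
    have htr := transport (V := polygon (F (f w)).1) (c := P.chain0) (r := (2 : ℝ) ^ S) hlen
      (by positivity) (chain0_ok P) (by
        intro k hk
        unfold polygon
        have : ((k : ZMod (F (f w)).1.length)).val = k := by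
          rw [ZMod.val_natCast, Nat.mod_eq_of_lt (by rw [hlen]; exact hk)]
        rw [this, hvtx k hk, vtx_eq P hk])
    obtain ⟨ht1, ht2, ht3⟩ := htr
    have h1 : (∃ g : ℕ → Bool, ∑ i ∈ Finset.range (f w).1.length,
        (if g i then val ((f w).1.getD i []) else 0) = val (f w).2) ↔ ∃ g, P.ssum g = P.T := by
      have h2 : ∀ g : ℕ → Bool, P.ssum g = ∑ i ∈ Finset.range (f w).1.length,
          (if g (i + 1) then val ((f w).1.getD i []) else 0) := by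
        intro g
        unfold Par.ssum
        have h3 := Finset.sum_Ico_add' (fun j => if g j = true then
          val ((f w).1.getD (j - 1) []) else 0) 0 P.n 1
        simp only [Nat.add_sub_cancel] at h3
        rw [← hn, Finset.range_eq_Ico, h3]
        refine Finset.sum_congr ?_ ?_
        · ext j
          simp only [Finset.mem_Icc, Finset.mem_Ico]
          omega
        · intro j hj
          have := Finset.mem_Ico.1 hj
          rw [ha j (by omega) (by omega)]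
      rw [hT]
      constructor
      · rintro ⟨g, hg⟩
        refine ⟨fun j => g (j - 1), ?_⟩
        rw [h2]
        simpa using hg
      · rintro ⟨g, hg⟩
        exact ⟨fun i => g (i + 1), by rw [← hg, h2]⟩
    rw [h1, ← shortest_iff P, ← ht3, ← hval]
    constructor
    · intro h
      exact ⟨(F (f w)).1, (F (f w)).2, rfl, hden, ht1, ht2, h⟩
    · rintro ⟨Q, k, he, -, -, -, h⟩
      obtain ⟨h2, h3⟩ := encInst_inj he
      rw [h2, h3]
      exact h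

end Pool.Agent.Helper20.Flip.Sh
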