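import Pool.Agent.Helper20.Flip.MNum
import Pool.Agent.Helper20.Flip.Sh.Par

/-!
# The macro phase: numerical facts about the parameters
-/

set_option autoImplicit false

namespace Pool.Agent.Helper20.Flip.Sh

namespace Par
variable (P : Par)

theorem η_pos : 0 < P.η := by unfold η; positivity

theorem η_mul : P.η * 2 ^ P.h = 1 := by unfold η; field_simp

theorem η_mul_le (k : ℕ) (hk : k ≤ 4 * P.s + 3 * P.n + 100) : P.η * 2 ^ k ≤ 1 := by
  have h1 : P.η * 2 ^ (4 * P.s + 3 * P.n + 100) ≤ 1 := by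
    rw [← P.hh, P.η_mul]
  refine le_trans ?_ h1
  exact mul_le_mul_of_nonneg_left (pow_le_pow_right₀ (by norm_num) hk) P.η_pos.le

theorem η_le : P.η * 2 ^ (2 * P.s + 3 * P.n + 60) ≤ 1 := P.η_mul_le _ (by omega)

theorem τ_pos : 0 < P.τ := by unfold τ; positivity

theorem τ_le : P.τ ≤ 1 / 200 := by
  unfold τ
  have h1 : (2 : ℝ) ^ 8 ≤ 2 ^ P.g := pow_le_pow_right₀ (by norm_num) (by rw [P.hg]; omega)
  have h2 : (1 : ℝ) / 2 ^ P.g ≤ 1 / 2 ^ 8 := one_div_le_one_div_of_le (by norm_num) h1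
  norm_num at h2 ⊢
  linarith

theorem η_le' : P.η ≤ 1 / 2 ^ 60 := by
  have := P.η_mul_le 60 (by omega)
  rw [le_div_iff₀ (by positivity)]
  exact this

/-- bound for the velocities -/
noncomputable def G : ℝ := 4 ^ (P.n + 3)
/-- round-off of lengths and angles -/
noncomputable def e0 : ℝ := P.τ ^ 2 * P.G ^ 3

theorem δpos : 0 < P.δ := mul_pos P.η_pos (by positivity)

theorem η_le_δ : P.η ≤ P.δ := by
  unfold δ
  have : (1 : ℝ) ≤ 2 ^ P.s := one_le_pow₀ (by norm_num)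
  have := P.η_pos
  nlinarith

theorem δ_le : P.δ ≤ 1 / 2 ^ 60 := by
  have := P.η_mul_le (P.s + 60) (by omega)
  rw [le_div_iff₀ (by positivity)]
  unfold δ
  rw [pow_add, ← mul_assoc] at this
  exact this

theorem G_ge : 64 ≤ P.G := by
  unfold G
  calc (64 : ℝ) = 4 ^ 3 := by norm_num
    _ ≤ 4 ^ (P.n + 3) := pow_le_pow_right₀ (by norm_num) (by omega)

theorem e0_pos : 0 < P.e0 := by
  have h1 := P.τ_pos
  have h2 := P.G_ge
  have : 0 < P.G := by linarith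
  unfold e0; positivity

theorem e0_mul : P.e0 * P.G ≤ P.δ ^ 2 := by
  have h1 : P.e0 * P.G ≤ P.η ^ 2 := by
    unfold e0
    have h2 : P.G = 2 ^ (2 * P.n + 6) := by
      unfold G
      rw [show (4 : ℝ) = 2 ^ 2 by norm_num, ← pow_mul]
      congr 1
    rw [h2]
    unfold τ η
    rw [div_pow, div_pow, one_pow, ← pow_mul, ← pow_mul, ← pow_mul]
    rw [div_mul_eq_mul_div, div_mul_eq_mul_div, one_mul, div_le_div_iff₀ (by positivity) (by positivity),
      ← pow_add, ← pow_add, one_mul]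
    refine pow_le_pow_right₀ (by norm_num) ?_
    have := P.hg
    have := P.hh
    omega
  refine h1.trans ?_
  exact pow_le_pow_left₀ P.η_pos.le P.η_le_δ 2

theorem e0_le_η : P.e0 ≤ P.η ^ 3 := by
  have h1 : P.e0 * P.G ≤ P.η ^ 3 := by
    unfold e0
    have h2 : P.G = 2 ^ (2 * P.n + 6) := by
      unfold G
      rw [show (4 : ℝ) = 2 ^ 2 by norm_num, ← pow_mul]
      congr 1
    rw [h2]
    unfold τ η
    rw [div_pow, div_pow, one_pow, one_pow, ← pow_mul, ← pow_mul, ← pow_mul]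
    rw [div_mul_eq_mul_div, div_mul_eq_mul_div, one_mul, div_le_div_iff₀ (by positivity) (by positivity),
      ← pow_add, ← pow_add, one_mul]
    refine pow_le_pow_right₀ (by norm_num) ?_
    have := P.hg
    have := P.hh
    omega
  refine le_trans ?_ h1
  have := P.G_ge
  have := P.e0_pos
  nlinarith

theorem e0_le : P.e0 ≤ P.δ ^ 2 := by
  refine le_trans ?_ P.e0_mul
  have := P.G_ge
  have := P.e0_pos
  nlinarith

theorem δsq_le : ((P.n : ℝ) + 3) * (1024 * P.δ ^ 2) ≤ P.η / 1024 := by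
  have h1 := P.η_le
  have h2 : P.δ ^ 2 = P.η * (P.η * 2 ^ (2 * P.s)) := by
    unfold δ
    rw [mul_pow, ← pow_mul, mul_comm 2 P.s]
    ring
  rw [h2]
  have h3 : ((P.n : ℝ) + 3) ≤ 2 ^ (3 * P.n + 3) := by
    have : P.n + 3 ≤ 2 ^ (3 * P.n + 3) := by
      have h4 : P.n + 3 < 2 ^ (P.n + 3) := Nat.lt_two_pow_self
      have h5 : 2 ^ (P.n + 3) ≤ 2 ^ (3 * P.n + 3) := Nat.pow_le_pow_right (by norm_num) (by omega)
      omega
    exact_mod_cast this
  have hη := P.η_pos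
  have h6 : ((P.n : ℝ) + 3) * (1024 * 1024) * (P.η * 2 ^ (2 * P.s)) ≤ 1 := by
    calc ((P.n : ℝ) + 3) * (1024 * 1024) * (P.η * 2 ^ (2 * P.s))
        ≤ 2 ^ (3 * P.n + 3) * 2 ^ 57 * (P.η * 2 ^ (2 * P.s)) := by
          gcongr
          norm_num
      _ = P.η * 2 ^ (2 * P.s + 3 * P.n + 60) := by ring
      _ ≤ 1 := h1
  have : ((P.n : ℝ) + 3) * (1024 * (P.η * (P.η * 2 ^ (2 * P.s)))) =
      P.η / 1024 * (((P.n : ℝ) + 3) * (1024 * 1024) * (P.η * 2 ^ (2 * P.s))) := by ring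
  rw [this]
  have h7 : 0 < P.η / 1024 := by positivity
  nlinarith

theorem δsq_le' : 1024 * P.δ ^ 2 ≤ P.δ / 2 ^ 40 := by
  have h1 := P.δ_le
  have h2 := P.δpos
  norm_num at h1 ⊢
  nlinarith

theorem Rpos (j : ℕ) : 0 < R j := by unfold R; positivity

theorem R_ge (j : ℕ) : 2 ≤ R j := by
  unfold R
  have : (1 : ℝ) ≤ 4 ^ j := one_le_pow₀ (by norm_num)
  linarith

theorem Rsucc (j : ℕ) : R (j + 1) = 4 * R j := by unfold R; ring

theorem Rmono {i j : ℕ} (h : i ≤ j) : R i ≤ R j := by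
  unfold R
  have : (4 : ℝ) ^ i ≤ 4 ^ j := pow_le_pow_right₀ (by norm_num) h
  linarith

theorem R_le {j : ℕ} (h : j ≤ P.M) : R j ≤ P.G / 2 := by
  refine (Rmono h).trans ?_
  unfold R G M
  rw [pow_succ 4 (P.n + 2)]
  linarith

theorem a_le {j : ℕ} (h : 1 ≤ j) : (P.a j : ℝ) ≤ 2 ^ P.s := by
  by_cases hj : j ≤ P.n
  · have h1 : P.a j ≤ ∑ j ∈ Finset.Icc 1 P.n, P.a j :=
      Finset.single_le_sum (f := P.a) (fun _ _ => Nat.zero_le _) (Finset.mem_Icc.2 ⟨h, hj⟩)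
    have h2 := P.hs
    exact_mod_cast (h1.trans h2.le)
  · rw [P.ha' j (by omega)]
    push_cast
    exact one_le_pow₀ (by norm_num)

theorem a_pos (j : ℕ) : (0 : ℝ) < P.a j := by exact_mod_cast P.ha j

theorem ηa_le {j : ℕ} (h : 1 ≤ j) : P.η * P.a j ≤ P.δ :=
  mul_le_mul_of_nonneg_left (P.a_le h) P.η_pos.le

theorem εpos (j : ℕ) : 0 < P.ε j := by
  unfold ε
  have := P.η_pos
  have := P.a_pos j
  positivity

theorem ε_le {j : ℕ} (h : 1 ≤ j) : P.ε j ≤ P.δ := by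
  unfold ε
  rw [div_le_iff₀ (by positivity)]
  have h1 := P.ηa_le h
  have h2 : (4 : ℝ) ≤ 4 ^ j := by
    calc (4 : ℝ) = 4 ^ 1 := by norm_num
      _ ≤ 4 ^ j := pow_le_pow_right₀ (by norm_num) h
  have h3 := P.δpos
  nlinarith

theorem ε_R (j : ℕ) : P.ε j * R j = 8 * (P.η * P.a j) := by
  unfold ε R
  field_simp
  ring

theorem ε_R' (j : ℕ) : P.ε (j + 1) * R j = 2 * (P.η * P.a (j + 1)) := by
  have := P.ε_R (j + 1)
  rw [Rsucc] at this
  linarith

/-- the length of an edge with the vector `(l, l * (τ x))` -/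
theorem toEdgeLen {l x : ℝ} (hl : 0 < l) (hx : |x| ≤ P.G) :
    l ≤ (toEdge (l, l * (P.τ * x))).1 ∧ (toEdge (l, l * (P.τ * x))).1 ≤ l * (1 + P.e0) := by
  have hG := P.G_ge
  have hτ := P.τ_pos
  have h0 : (toEdge (l, l * (P.τ * x))).1 = l * Real.sqrt (1 + (P.τ * x) ^ 2) := by
    unfold toEdge
    simp only
    rw [show l ^ 2 + (l * (P.τ * x)) ^ 2 = l ^ 2 * (1 + (P.τ * x) ^ 2) by ring,
      Real.sqrt_mul (by positivity), Real.sqrt_sq hl.le]
  rw [h0]
  have h1 : 1 ≤ Real.sqrt (1 + (P.τ * x) ^ 2) := by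
    rw [Real.one_le_sqrt]
    have := sq_nonneg (P.τ * x)
    linarith
  have h2 : Real.sqrt (1 + (P.τ * x) ^ 2) ≤ 1 + P.e0 := by
    have h3 : (P.τ * x) ^ 2 ≤ P.e0 := by
      unfold e0
      rw [mul_pow]
      refine mul_le_mul_of_nonneg_left ?_ (by positivity)
      have h4 : x ^ 2 ≤ P.G ^ 2 := by
        rw [← sq_abs x]
        exact pow_le_pow_left₀ (abs_nonneg _) hx 2
      have h5 : P.G ^ 2 ≤ P.G ^ 3 := pow_le_pow_right₀ (by linarith) (by norm_num)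
      linarith
    have h6 := P.e0_pos
    rw [Real.sqrt_le_left (by linarith)]
    nlinarith
  constructor
  · nlinarith
  · exact mul_le_mul_of_nonneg_left h2 hl.le

/-- the velocity of an edge with the vector `(l, l * (τ x))` -/
theorem toEdge_vel {l x : ℝ} (hl : 0 < l) (hx : |x| ≤ P.G) :
    |(toEdge (l, l * (P.τ * x))).2 / P.τ - x| ≤ P.e0 := by
  have hG := P.G_ge
  have hτ := P.τ_pos
  have h0 : (toEdge (l, l * (P.τ * x))).2 = Real.arctan (P.τ * x) := by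
    unfold toEdge
    simp only
    congr 1
    field_simp
  rw [h0]
  have key : ∀ y : ℝ, 0 ≤ y → y ≤ P.G → |Real.arctan (P.τ * y) / P.τ - y| ≤ P.e0 := by
    intro y hy hy'
    obtain ⟨h1, h2⟩ := arctan_near (y := P.τ * y) (by positivity)
    have h3 : P.τ ^ 2 * y ^ 3 ≤ P.e0 := by
      unfold e0
      gcongr
    have h4 := P.e0_pos
    rw [abs_le]
    constructor
    · rw [le_sub_iff_add_le, le_div_iff₀ hτ]
      have : (P.τ * y) ^ 3 = P.τ ^ 2 * y ^ 3 * P.τ := by ring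
      rw [this] at h1
      nlinarith
    · have : Real.arctan (P.τ * y) / P.τ ≤ y := by
        rw [div_le_iff₀ hτ]
        linarith
      linarith
  rcases le_total 0 x with hx0 | hx0
  · exact key x hx0 (by rwa [abs_of_nonneg hx0] at hx)
  · have h5 := key (-x) (by linarith) (by rwa [abs_of_nonpos hx0] at hx)
    rw [mul_neg, Real.arctan_neg] at h5
    rw [← abs_neg]
    have : -(Real.arctan (P.τ * x) / P.τ - x) = -Real.arctan (P.τ * x) / P.τ - -x := by ring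
    rw [this]
    exact h5

theorem ηTle : 3 * P.η * P.T ≤ 3 * P.δ := by
  have h1 : (P.T : ℝ) ≤ 2 ^ P.s := by exact_mod_cast P.hT.le
  have h2 := P.η_pos
  unfold δ
  nlinarith

theorem ηT_abs : |3 * P.η * P.T| ≤ P.G := by
  have h1 := P.ηTle
  have h2 := P.η_pos
  have h3 := P.δ_le
  have h4 := P.G_ge
  norm_num at h3
  rw [abs_of_nonneg (by positivity)]
  linarith

/-- the nominal velocity of the wall `j` -/
noncomputable def vnom (j : ℕ) : ℝ := if j = P.n + 2 then -(3 * P.η * P.T) else R j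

theorem vnom_le {j : ℕ} (h : j ≤ P.M) : |P.vnom j| ≤ P.G := by
  unfold vnom
  have hG := P.G_ge
  have h1 := P.η_le'
  have h2 := P.η_pos
  norm_num at h1
  split_ifs
  · rw [abs_neg]
    exact P.ηT_abs
  · rw [abs_of_pos (Rpos j)]
    have := P.R_le h
    linarith

theorem Lw_bounds {j : ℕ} (h : j ≤ P.M) : 1 ≤ P.Lw j ∧ P.Lw j ≤ 1 + P.e0 := by
  have h1 := P.toEdgeLen (l := 1) one_pos (P.vnom_le h)
  rw [one_mul] at h1
  unfold Lw
  unfold vnom at h1
  simpa using h1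

theorem Lt_bounds {j : ℕ} (h : j ≤ P.M) : P.ε j ≤ P.Lt j ∧ P.Lt j ≤ P.ε j * (1 + P.e0) := by
  have hR := P.R_le h
  have hR' := Rpos j
  exact P.toEdgeLen (P.εpos j) (x := R j / 2) (by
    rw [abs_of_pos (by positivity)]
    linarith)

theorem δ_le'' : P.δ ≤ 1 / 2 ^ 100 := by
  have := P.η_mul_le (P.s + 100) (by omega)
  rw [le_div_iff₀ (by positivity)]
  unfold δ
  rw [pow_add, ← mul_assoc] at this
  exact this

/-- the first five edges -/
theorem preEq : ∃ lz lp la lb lr z p a b r : ℝ,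
    P.pre = [(lz, P.τ * z), (lp, P.τ * p), (la, P.τ * a), (lb, P.τ * b), (lr, P.τ * r)] ∧
    (1 ≤ lz ∧ lz ≤ 1 + P.e0) ∧ (0 < lp ∧ lp ≤ P.η ^ 3 * (1 + P.e0)) ∧ (1 ≤ la ∧ la ≤ 1 + P.e0) ∧
    (1 / 4 ≤ lb ∧ lb ≤ 1 / 4 * (1 + P.e0)) ∧ (0 < lr ∧ lr ≤ P.η ^ 3 * (1 + P.e0)) ∧
    |z - P.vZ| ≤ P.e0 ∧ |p - 1 / 128| ≤ P.e0 ∧ |a - vA| ≤ P.e0 ∧ |b - P.vB| ≤ P.e0 ∧
    |r - 315 / 512| ≤ P.e0 := by
  have hG := P.G_ge
  have hη := P.η_pos
  have hδ := P.δpos
  have hδ' := P.δ_le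
  norm_num at hδ'
  have hτ := P.τ_pos
  have key : ∀ v : Pt, toEdge v = ((toEdge v).1, P.τ * ((toEdge v).2 / P.τ)) := by
    intro v
    rw [mul_div_cancel₀ _ hτ.ne']
  have hη3 : 0 < P.η ^ 3 := by positivity
  have gz : |P.vZ| ≤ P.G := by
    unfold vZ
    rw [abs_le]
    constructor <;> linarith
  have gp : |(1 / 128 : ℝ)| ≤ P.G := by
    rw [abs_of_pos (by norm_num)]
    linarith
  have ga : |vA| ≤ P.G := by
    unfold vA
    rw [abs_of_pos (by norm_num)]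
    linarith
  have gb : |P.vB| ≤ P.G := by
    unfold vB
    rw [abs_le]
    constructor <;> linarith
  have gr : |(315 / 512 : ℝ)| ≤ P.G := by
    rw [abs_of_pos (by norm_num)]
    linarith
  have hz := P.toEdgeLen one_pos gz
  have hz' := P.toEdge_vel one_pos gz
  have hp := P.toEdgeLen hη3 gp
  have hp' := P.toEdge_vel hη3 gp
  have ha := P.toEdgeLen one_pos ga
  have ha' := P.toEdge_vel one_pos ga
  have hb := P.toEdgeLen (l := 1 / 4) (by norm_num) gb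
  have hb' := P.toEdge_vel (l := 1 / 4) (by norm_num) gb
  have hr := P.toEdgeLen hη3 gr
  have hr' := P.toEdge_vel hη3 gr
  rw [one_mul] at hz hz' ha ha'
  rw [one_mul] at hz ha
  refine ⟨_, _, _, _, _, _, _, _, _, _, ?_, hz, ⟨lt_of_lt_of_le hη3 hp.1, hp.2⟩, ha, hb,
    ⟨lt_of_lt_of_le hη3 hr.1, hr.2⟩, hz', hp', ha', hb', hr'⟩
  unfold pre preV
  simp only [List.map_cons, List.map_nil]
  rw [← key, ← key, ← key, ← key, ← key]

end Par

end Pool.Agent.Helper20.Flip.Sh
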